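import Pool.Agent.N799.TL.Lower
import Pool.Agent.N799.SP.Final

/-!
# The zeros of `ξ(s + a) + c ξ(s - a)` and zero-free half planes of `ζ`
-/

set_option autoImplicit false

open Complex Metric Set Filter Topology

namespace Pool.Agent.N799.TL

open Pool.Agent.N799.SP
open Pool.Agent.H24R2.JP (XX)
open Pool.Agent.H24R2.JP.B1h (XX_neg XX_conj)

/-- Riemann's xi function -/
noncomputable def xi (s : ℂ) : ℂ := s * (s - 1) / 2 * completedRiemannZeta₀ s + 1 / 2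

theorem XX_xi (z : ℂ) : XX z = 8 * xi (1 / 2 + z) := by
  unfold XX xi
  ring

theorem xi_XX (s : ℂ) : xi s = XX (s - 1 / 2) / 8 := by
  rw [XX_xi]
  have : (1 / 2 : ℂ) + (s - 1 / 2) = s := by ring
  rw [this]
  ring

theorem shift_eq (a : ℝ) (c s : ℂ) :
    xi (s + a) + c * xi (s - a) = (XX (s - 1 / 2 + a) + c * XX (s - 1 / 2 - a)) / 8 := by
  rw [xi_XX, xi_XX]
  have e1 : s + (a : ℂ) - 1 / 2 = s - 1 / 2 + a := by ring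
  have e2 : s - (a : ℂ) - 1 / 2 = s - 1 / 2 - a := by ring
  rw [e1, e2]
  ring

theorem shift_zero (a : ℝ) (c s : ℂ) :
    xi (s + a) + c * xi (s - a) = 0 ↔ XX (s - 1 / 2 + a) + c * XX (s - 1 / 2 - a) = 0 := by
  rw [shift_eq, div_eq_zero_iff]
  simp

theorem XX_zero_re {σ0 : ℝ} (hz : ∀ s : ℂ, σ0 ≤ s.re → riemannZeta s ≠ 0) {w : ℂ} (hw : XX w = 0) :
    |w.re| ≤ σ0 - 1 / 2 := by
  have key : ∀ w : ℂ, XX w = 0 → w.re ≤ σ0 - 1 / 2 := by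
    intro w hw
    obtain ⟨h1, h2, h3⟩ := Pool.Agent.H24R2.JP.Zer.completed_zero w hw
    by_contra hcon
    push Not at hcon
    apply hz (1 / 2 + w)
    · simp only [add_re]
      have : ((1 : ℂ) / 2).re = 1 / 2 := by norm_num
      rw [this]
      linarith
    · rw [riemannZeta_def_of_ne_zero h1, h3, zero_div]
  have h1 := key w hw
  have h2 := key (-w) (by rw [XX_neg]; exact hw)
  rw [neg_re] at h2
  rw [abs_le]
  constructor <;> linarith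

theorem sum_conj (a : ℝ) (c z : ℂ) : XX ((starRingEnd ℂ) z + a) + (starRingEnd ℂ) c * XX ((starRingEnd ℂ) z - a)
    = (starRingEnd ℂ) (XX (z + a) + c * XX (z - a)) := by
  rw [map_add, map_mul, ← XX_conj, ← XX_conj, map_add, map_sub, Complex.conj_ofReal]

theorem sum_neg (a : ℝ) (c z : ℂ) (hc : ‖c‖ = 1) :
    XX (-z + a) + (starRingEnd ℂ) c * XX (-z - a) = (starRingEnd ℂ) c * (XX (z + a) + c * XX (z - a)) := by
  have hcc : (starRingEnd ℂ) c * c = 1 := by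
    rw [Complex.conj_mul', hc]; norm_num
  have e1 : -z + (a : ℂ) = -(z - a) := by ring
  have e2 : -z - (a : ℂ) = -(z + a) := by ring
  rw [e1, e2, XX_neg, XX_neg, mul_add, ← mul_assoc, hcc]
  ring

/-- from the first quadrant to the other ones -/
theorem sym_bound {a b t₀ : ℝ} (ht : 0 < t₀)
    (h : ∀ (c s : ℂ), ‖c‖ = 1 → b ≤ s.re → t₀ ≤ s.im → QQ a c s ≠ 0)
    {c z : ℂ} (hc : ‖c‖ = 1) (h0 : XX (z + a) + c * XX (z - a) = 0) (hz : t₀ ≤ |z.im|) :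
    |z.re| < b - 1 / 2 := by
  have k1 : ∀ (c z : ℂ), ‖c‖ = 1 → XX (z + a) + c * XX (z - a) = 0 → t₀ ≤ z.im → z.re < b - 1 / 2 := by
    intro c z hc h0 hz
    by_contra hcon
    push Not at hcon
    have e1 : z + 1 / 2 - 1 / 2 = z := by ring
    have him : (z + 1 / 2).im = z.im := by
      rw [add_im]
      norm_num
    have hre : (z + 1 / 2).re = z.re + 1 / 2 := by
      rw [add_re]
      norm_num
    have h2 := QQ_eq (a := a) (c := c) (s := z + 1 / 2) (by rw [him]; linarith)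
    rw [e1, h0] at h2
    have h3 : GX (z + 1 / 2 + a) ≠ 0 := GX_ne (by rw [im_add, him]; linarith)
    rcases mul_eq_zero.1 h2.symm with h4 | h4
    · exact h3 h4
    · exact h c (z + 1 / 2) hc (by rw [hre]; linarith) (by rw [him]; exact hz) h4
  have k2 : ∀ (c z : ℂ), ‖c‖ = 1 → XX (z + a) + c * XX (z - a) = 0 → t₀ ≤ |z.im| → z.re < b - 1 / 2 := by
    intro c z hc h0 hz
    rcases le_abs.1 hz with hz1 | hz1
    · exact k1 c z hc h0 hz1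
    · have := k1 ((starRingEnd ℂ) c) ((starRingEnd ℂ) z) (by rw [Complex.norm_conj]; exact hc)
        (by rw [sum_conj, h0, map_zero]) (by rw [conj_im]; exact hz1)
      rwa [conj_re] at this
  have k3 := k2 c z hc h0 hz
  have k4 := k2 ((starRingEnd ℂ) c) (-z) (by rw [Complex.norm_conj]; exact hc)
    (by rw [sum_neg a c z hc, h0, mul_zero]) (by rw [neg_im, abs_neg]; exact hz)
  rw [neg_re] at k4
  rw [abs_lt]
  constructor <;> linarith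

theorem re_half (s : ℂ) : (s - 1 / 2).re = s.re - 1 / 2 := by
  rw [sub_re]; norm_num

theorem im_half (s : ℂ) : (s - 1 / 2).im = s.im := by
  rw [sub_im]; norm_num

/-- the asymptotic strip -/
theorem strip (a ε : ℝ) (ha0 : 0 < a) (ha1 : a < 1 / 2) (hε : 0 < ε) : ∃ t₀ : ℝ, ∀ (c s : ℂ), ‖c‖ = 1 →
    xi (s + a) + c * xi (s - a) = 0 → t₀ ≤ |s.im| → |s.re - 1 / 2| ≤ 1 / 2 - a + ε := by
  obtain ⟨t₀, ht₀, h⟩ := QQ_edge a ε ha0 ha1 hε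
  refine ⟨t₀, fun c s hc h0 hs => ?_⟩
  have h1 := sym_bound (b := 1 - a + ε) (by linarith) h hc ((shift_zero a c s).1 h0)
    (by rw [im_half]; exact hs)
  rw [re_half] at h1
  linarith

/-- under a zero-free half plane -/
theorem strip_free (a : ℝ) (ha0 : 0 < a) (ha1 : a < 1 / 2)
    (hq : ∃ σ₀ : ℝ, 1 / 2 < σ₀ ∧ σ₀ < 1 ∧ ∀ s : ℂ, σ₀ ≤ s.re → riemannZeta s ≠ 0) :
    ∃ δ t₀ : ℝ, 0 < δ ∧ ∀ (c s : ℂ), ‖c‖ = 1 →
    xi (s + a) + c * xi (s - a) = 0 → t₀ ≤ |s.im| → |s.re - 1 / 2| ≤ 1 / 2 - a - δ := by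
  obtain ⟨σ₀, h1, h2, h3⟩ := hq
  obtain ⟨δ, t₀, hδ, ht₀, h⟩ := QQ_free a σ₀ ha0 ha1 h1 h2 h3
  refine ⟨δ, t₀, hδ, fun c s hc h0 hs => ?_⟩
  have h1 := sym_bound (b := 1 - a - δ) (by linarith) h hc ((shift_zero a c s).1 h0)
    (by rw [im_half]; exact hs)
  rw [re_half] at h1
  linarith

/-- zeros on the critical line -/
theorem line_of (hq : ∃ σ₀ : ℝ, 1 / 2 < σ₀ ∧ σ₀ < 1 ∧ ∀ s : ℂ, σ₀ ≤ s.re → riemannZeta s ≠ 0) :
    ∃ a : ℝ, 0 < a ∧ a < 1 / 2 ∧ ∀ (c s : ℂ), ‖c‖ = 1 →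
    xi (s + a) + c * xi (s - a) = 0 → s.re = 1 / 2 := by
  obtain ⟨σ₀, h1, h2, h3⟩ := hq
  refine ⟨σ₀ - 1 / 2, by linarith, by linarith, fun c s hc h0 => ?_⟩
  have h4 := on_line (a := σ₀ - 1 / 2) (by linarith) (fun w hw => XX_zero_re h3 hw) hc
    ((shift_zero _ c s).1 h0)
  rw [re_half] at h4
  linarith

theorem zeta_conj_zero {s : ℂ} (hs : riemannZeta s = 0) : riemannZeta ((starRingEnd ℂ) s) = 0 := by
  rw [riemannZeta_conj, hs, map_zero]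

/-- the local correspondence -/
theorem localz (a δ1 : ℝ) (ha0 : 0 < a) (ha1 : a < 1 / 2) (hδ1 : 0 < δ1) : ∃ η t₀ : ℝ, 0 < η ∧
    ∀ (c ρ : ℂ), ‖c‖ = 1 → riemannZeta ρ = 0 → 1 - η ≤ ρ.re → t₀ ≤ |ρ.im| →
      ∃ s : ℂ, xi (s + a) + c * xi (s - a) = 0 ∧ 1 - a - δ1 < s.re ∧ |s.im - ρ.im| ≤ 1 := by
  obtain ⟨η, t₀, hη, ht₀, h⟩ := QQ_local a δ1 ha0 ha1 hδ1
  refine ⟨η, t₀, hη, ?_⟩
  have k1 : ∀ (c ρ : ℂ), ‖c‖ = 1 → riemannZeta ρ = 0 → 1 - η ≤ ρ.re → t₀ ≤ ρ.im →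
      ∃ s : ℂ, XX (s - 1 / 2 + a) + c * XX (s - 1 / 2 - a) = 0 ∧ 1 - a - δ1 < s.re ∧
        |s.im - ρ.im| ≤ 1 := by
    intro c ρ hc hρ h1 h2
    obtain ⟨s, m1, m2, m3⟩ := h c ρ hc h1 h2 hρ
    refine ⟨s, ?_, m1, m2⟩
    have h3 := (abs_le.1 m2).1
    rw [QQ_eq (by linarith), m3, mul_zero]
  intro c ρ hc hρ h1 h2
  rcases le_abs.1 h2 with h3 | h3
  · obtain ⟨s, m1, m2, m3⟩ := k1 c ρ hc hρ h1 h3
    exact ⟨s, (shift_zero a c s).2 m1, m2, m3⟩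
  · obtain ⟨s, m1, m2, m3⟩ := k1 ((starRingEnd ℂ) c) ((starRingEnd ℂ) ρ)
      (by rw [Complex.norm_conj]; exact hc) (zeta_conj_zero hρ) (by rw [conj_re]; exact h1)
      (by rw [conj_im]; exact h3)
    refine ⟨(starRingEnd ℂ) s, (shift_zero a c _).2 ?_, by rw [conj_re]; exact m2, ?_⟩
    · have e := sum_conj a ((starRingEnd ℂ) c) (s - 1 / 2)
      rw [m1, map_zero, Complex.conj_conj] at e
      have e2 : (starRingEnd ℂ) (s - 1 / 2) = (starRingEnd ℂ) s - 1 / 2 := by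
        rw [map_sub]
        congr 1
        rw [map_div₀, map_one]
        congr 1
        exact Complex.conj_ofNat 2
      rw [e2] at e
      exact e
    · rw [conj_im]
      rw [conj_im] at m3
      have : -s.im - ρ.im = -(s.im - -ρ.im) := by ring
      rw [this, abs_neg]
      exact m3

/-- the converse -/
theorem free_of {a δ t₀ : ℝ} {c : ℂ} (ha0 : 0 < a) (ha1 : a < 1 / 2) (hδ : 0 < δ) (hc : ‖c‖ = 1)
    (h : ∀ s : ℂ, xi (s + a) + c * xi (s - a) = 0 → t₀ ≤ |s.im| → |s.re - 1 / 2| ≤ 1 / 2 - a - δ) :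
    ∃ σ₀ : ℝ, 1 / 2 < σ₀ ∧ σ₀ < 1 ∧ ∀ s : ℂ, σ₀ ≤ s.re → riemannZeta s ≠ 0 := by
  obtain ⟨η, t1, hη, h1⟩ := localz a δ ha0 ha1 hδ
  obtain ⟨r, hr, hlow⟩ := low_zeros (max t1 (t₀ + 1))
  have hm : 0 < min (min η (r / 2)) (1 / 4) := lt_min (lt_min hη (by linarith)) (by norm_num)
  refine ⟨1 - min (min η (r / 2)) (1 / 4), ?_, by linarith, fun ρ hρ h0 => ?_⟩
  · linarith [min_le_right (min η (r / 2)) (1 / 4)]
  have m1 : min (min η (r / 2)) (1 / 4) ≤ η := (min_le_left _ _).trans (min_le_left _ _)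
  have m2 : min (min η (r / 2)) (1 / 4) ≤ r / 2 := (min_le_left _ _).trans (min_le_right _ _)
  rcases le_or_gt |ρ.im| (max t1 (t₀ + 1)) with h2 | h2
  · exact hlow ρ (by linarith) h2 h0
  · obtain ⟨s, k1, k2, k3⟩ := h1 c ρ hc h0 (by linarith) ((le_max_left _ _).trans h2.le)
    have h3 : t₀ + 1 ≤ |ρ.im| := (le_max_right _ _).trans h2.le
    have h4 : |ρ.im| ≤ |s.im| + 1 := by
      have h6 := abs_sub_abs_le_abs_sub ρ.im s.im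
      rw [abs_sub_comm] at h6
      linarith
    have h5 := h s k1 (by linarith)
    have h6 := (le_abs_self _).trans h5
    linarith

/-- The main statement. -/
theorem main (c : ℂ) (hc : ‖c‖ = 1) :
    (∀ a ε : ℝ, 0 < a → a < 1 / 2 → 0 < ε →
      (∃ t₀ : ℝ, ∀ s : ℂ, xi (s + a) + c * xi (s - a) = 0 → t₀ ≤ |s.im| →
        |s.re - 1 / 2| ≤ 1 / 2 - a + ε) ∧
      (∃ η t₀ : ℝ, 0 < η ∧ ∀ ρ : ℂ, riemannZeta ρ = 0 → 1 - η ≤ ρ.re → t₀ ≤ |ρ.im| →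
        ∃ s : ℂ, xi (s + a) + c * xi (s - a) = 0 ∧ 1 - a - ε < s.re ∧ |s.im - ρ.im| ≤ 1)) ∧
    ((∃ σ₀ : ℝ, 1 / 2 < σ₀ ∧ σ₀ < 1 ∧ ∀ s : ℂ, σ₀ ≤ s.re → riemannZeta s ≠ 0) ↔
      ∃ a : ℝ, 0 < a ∧ a < 1 / 2 ∧ ∀ s : ℂ, xi (s + a) + c * xi (s - a) = 0 → s.re = 1 / 2) ∧
    ((∃ σ₀ : ℝ, 1 / 2 < σ₀ ∧ σ₀ < 1 ∧ ∀ s : ℂ, σ₀ ≤ s.re → riemannZeta s ≠ 0) ↔
      ∃ a : ℝ, 0 < a ∧ a < 1 / 2 ∧ ∃ δ t₀ : ℝ, 0 < δ ∧ ∀ s : ℂ,
        xi (s + a) + c * xi (s - a) = 0 → t₀ ≤ |s.im| → |s.re - 1 / 2| ≤ 1 / 2 - a - δ) ∧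
    ((∃ σ₀ : ℝ, 1 / 2 < σ₀ ∧ σ₀ < 1 ∧ ∀ s : ℂ, σ₀ ≤ s.re → riemannZeta s ≠ 0) ↔
      ∀ a : ℝ, 0 < a → a < 1 / 2 → ∃ δ t₀ : ℝ, 0 < δ ∧ ∀ s : ℂ,
        xi (s + a) + c * xi (s - a) = 0 → t₀ ≤ |s.im| → |s.re - 1 / 2| ≤ 1 / 2 - a - δ) := by
  refine ⟨fun a ε ha0 ha1 hε => ⟨?_, ?_⟩, ⟨fun h => ?_, ?_⟩, ⟨fun h => ?_, ?_⟩, ⟨fun h => ?_, fun h => ?_⟩⟩
  · obtain ⟨t₀, h⟩ := strip a ε ha0 ha1 hε
    exact ⟨t₀, fun s => h c s hc⟩
  · obtain ⟨η, t₀, hη, h⟩ := localz a ε ha0 ha1 hε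
    exact ⟨η, t₀, hη, fun ρ => h c ρ hc⟩
  · obtain ⟨a, h1, h2, h3⟩ := line_of h
    exact ⟨a, h1, h2, fun s => h3 c s hc⟩
  · rintro ⟨a, h1, h2, h3⟩
    refine free_of (a := a) (δ := 1 / 2 - a) (t₀ := 0) h1 h2 (by linarith) hc fun s hs _ => ?_
    rw [h3 s hs]
    simp
  · obtain ⟨δ, t₀, hδ, h1⟩ := strip_free (1 / 4) (by norm_num) (by norm_num) h
    exact ⟨1 / 4, by norm_num, by norm_num, δ, t₀, hδ, fun s => h1 c s hc⟩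
  · rintro ⟨a, h1, h2, δ, t₀, hδ, h3⟩
    exact free_of h1 h2 hδ hc h3
  · intro a ha0 ha1
    obtain ⟨δ, t₀, hδ, h1⟩ := strip_free a ha0 ha1 h
    exact ⟨δ, t₀, hδ, fun s => h1 c s hc⟩
  · obtain ⟨δ, t₀, hδ, h1⟩ := h (1 / 4) (by norm_num) (by norm_num)
    exact free_of (by norm_num) (by norm_num) hδ hc h1

end Pool.Agent.N799.TL
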