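import Pool.Agent.N799.SP.Three
import Pool.Agent.TH809.MZ.Fin

/-!
# Subconvex bounds of zeta in the strip
-/

set_option autoImplicit false

open Complex Metric Set Filter Topology

namespace Pool.Agent.N799.TL

open Pool.Agent.N799.SP

/-- A three lines estimate in a rectangle. -/
theorem three_gen {f : ℂ → ℂ} {w1 : ℂ} {σ1 σ2 h ℓ κ α A B G C : ℝ} (hℓ : 0 < ℓ) (hκ : 0 < κ)
    (hh : 0 < h) (hα0 : 0 ≤ α) (hα1 : α ≤ 1)
    (h1 : σ1 ≤ w1.re) (h2 : w1.re ≤ σ2) (h12 : σ1 < σ2) (h3 : σ2 - σ1 ≤ 3)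
    (hf : ∀ w : ℂ, σ1 ≤ w.re → w.re ≤ σ2 → |w.im - w1.im| ≤ h → DifferentiableAt ℂ f w)
    (hA : ∀ w : ℂ, w.re = σ1 → |w.im - w1.im| ≤ h → ‖f w‖ ≤ Real.exp A)
    (hB : ∀ w : ℂ, w.re = σ2 → |w.im - w1.im| ≤ h → ‖f w‖ ≤ Real.exp B)
    (hG : ∀ w : ℂ, σ1 ≤ w.re → w.re ≤ σ2 → |w.im - w1.im| ≤ h → ‖f w‖ ≤ Real.exp G)
    (cA : A + ℓ * (α * (σ1 - w1.re) + 9 * κ) ≤ C)
    (cB : B + ℓ * (α * (σ2 - w1.re) + 9 * κ) ≤ C)
    (cG : G + ℓ * (3 + 9 * κ - κ * h ^ 2) ≤ C) : ‖f w1‖ ≤ Real.exp C := by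
  set g : ℂ → ℂ := fun w => f w * Complex.exp (ℓ * ((α : ℝ) * (w - w1) + κ * (w - w1) ^ 2)) with hg
  have hn : ∀ w : ℂ, ‖g w‖ = ‖f w‖ * Real.exp (ℓ * (α * (w.re - w1.re) +
      κ * ((w.re - w1.re) ^ 2 - (w.im - w1.im) ^ 2))) := by
    intro w
    simp only [hg]
    rw [norm_mul, Complex.norm_exp]
    congr 2
    have e : ((w - w1) ^ 2).re = (w.re - w1.re) ^ 2 - (w.im - w1.im) ^ 2 := by
      rw [pow_two, mul_re, sub_re, sub_im]
      ring
    rw [re_ofReal_mul, add_re, re_ofReal_mul, re_ofReal_mul, e, sub_re]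
  have hgw1 : g w1 = f w1 := by simp [hg]
  have hmain : ∀ w : ℂ, σ1 ≤ w.re → w.re ≤ σ2 → ∀ P e : ℝ, ‖f w‖ ≤ Real.exp P →
      α * (w.re - w1.re) + κ * ((w.re - w1.re) ^ 2 - (w.im - w1.im) ^ 2) ≤ e → P + ℓ * e ≤ C →
      ‖g w‖ ≤ Real.exp C := by
    intro w hw1 hw2 P e hP he hC
    rw [hn]
    calc ‖f w‖ * Real.exp (ℓ * (α * (w.re - w1.re) +
          κ * ((w.re - w1.re) ^ 2 - (w.im - w1.im) ^ 2))) ≤ Real.exp P * Real.exp (ℓ * e) := by gcongr
      _ = Real.exp (P + ℓ * e) := by rw [Real.exp_add]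
      _ ≤ _ := Real.exp_le_exp.2 hC
  have habs : ∀ w : ℂ, σ1 ≤ w.re → w.re ≤ σ2 → |w.re - w1.re| ≤ 3 := by
    intro w hw1 hw2
    rw [abs_le]; constructor <;> linarith
  have hsq : ∀ w : ℂ, σ1 ≤ w.re → w.re ≤ σ2 → (w.re - w1.re) ^ 2 ≤ 9 := by
    intro w hw1 hw2
    have := habs w hw1 hw2
    nlinarith [sq_abs (w.re - w1.re), abs_nonneg (w.re - w1.re)]
  have hlin : ∀ w : ℂ, σ1 ≤ w.re → w.re ≤ σ2 → α * (w.re - w1.re) ≤ 3 := by
    intro w hw1 hw2
    have h4 := (le_abs_self _).trans (habs w hw1 hw2)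
    nlinarith
  have hgd : ∀ w : ℂ, σ1 ≤ w.re → w.re ≤ σ2 → |w.im - w1.im| ≤ h → DifferentiableAt ℂ g w := by
    intro w k1 k2 k3
    simp only [hg]
    refine (hf w k1 k2 k3).mul ?_
    fun_prop
  rw [← hgw1]
  have hside : ∀ y : ℝ, w1.im - h ≤ y → y ≤ w1.im + h → |y - w1.im| ≤ h := by
    intro y k1 k2; rw [abs_le]; constructor <;> linarith
  refine Pool.Agent.R307.rect_max (a := σ1) (b := σ2) (c := w1.im - h) (d := w1.im + h) h12
    (by linarith) ?_ ?_ ?_ ?_ ?_ ?_ h1 h2 (by linarith) (by linarith)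
  · intro w hw
    rw [mem_reProdIm] at hw
    exact (hgd w hw.1.1 hw.1.2 (hside _ hw.2.1 hw.2.2)).continuousAt.continuousWithinAt
  · intro w hw
    rw [mem_reProdIm] at hw
    exact (hgd w hw.1.1.le hw.1.2.le (hside _ hw.2.1.le hw.2.2.le)).differentiableWithinAt
  · intro y k1 k2
    have k := hside y k1 k2
    refine hmain ⟨σ1, y⟩ le_rfl (by simp only; linarith) A (α * (σ1 - w1.re) + 9 * κ)
      (hA ⟨σ1, y⟩ rfl k) ?_ cA
    have := hsq ⟨σ1, y⟩ le_rfl (by simp only; linarith)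
    simp only at this ⊢
    nlinarith [sq_nonneg (y - w1.im)]
  · intro y k1 k2
    have k := hside y k1 k2
    refine hmain ⟨σ2, y⟩ (by simp only; linarith) le_rfl B (α * (σ2 - w1.re) + 9 * κ)
      (hB ⟨σ2, y⟩ rfl k) ?_ cB
    have := hsq ⟨σ2, y⟩ (by simp only; linarith) le_rfl
    simp only at this ⊢
    nlinarith [sq_nonneg (y - w1.im)]
  · intro x k1 k2
    have k := hside (w1.im - h) le_rfl (by linarith)
    refine hmain ⟨x, w1.im - h⟩ k1 k2 G (3 + 9 * κ - κ * h ^ 2) (hG ⟨x, w1.im - h⟩ k1 k2 k) ?_ cG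
    have h4 := hsq ⟨x, w1.im - h⟩ k1 k2
    have h5 := hlin ⟨x, w1.im - h⟩ k1 k2
    simp only at h4 h5 ⊢
    nlinarith
  · intro x k1 k2
    have k := hside (w1.im + h) (by linarith) le_rfl
    refine hmain ⟨x, w1.im + h⟩ k1 k2 G (3 + 9 * κ - κ * h ^ 2) (hG ⟨x, w1.im + h⟩ k1 k2 k) ?_ cG
    have h4 := hsq ⟨x, w1.im + h⟩ k1 k2
    have h5 := hlin ⟨x, w1.im + h⟩ k1 k2
    simp only at h4 h5 ⊢
    nlinarith

/-- bounds of zeta to the right of `1 + η` -/
theorem zeta_right (η : ℝ) (hη : 0 < η) : ∃ C : ℝ, 1 ≤ C ∧ ∀ w : ℂ, 1 + η ≤ w.re →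
    riemannZeta w ≠ 0 ∧ ‖riemannZeta w‖ ≤ C ∧ C⁻¹ ≤ ‖riemannZeta w‖ := by
  have hsum : Summable (fun n : ℕ => 1 / (n : ℝ) ^ (1 + η : ℝ)) :=
    Real.summable_one_div_nat_rpow.2 (by linarith)
  set B : ℝ := ∑' n : ℕ, 1 / (n : ℝ) ^ (1 + η : ℝ) with hB
  have hB0 : 0 ≤ B := tsum_nonneg fun n => by positivity
  have hup : ∀ s : ℂ, 1 + η ≤ s.re → ‖riemannZeta s‖ ≤ B := by
    intro s hs
    rw [zeta_eq_tsum_one_div_nat_cpow (by linarith)]
    refine tsum_of_norm_bounded hsum.hasSum fun n => ?_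
    rw [norm_div, norm_one]
    rcases Nat.eq_zero_or_pos n with h | h
    · subst h
      have hs0 : s ≠ 0 := by
        intro h0; rw [h0, zero_re] at hs; linarith
      have h1 : (1 + η : ℝ) ≠ 0 := by positivity
      simp [Complex.zero_cpow hs0, Real.zero_rpow h1]
    · rw [Complex.norm_natCast_cpow_of_pos h]
      have h1 : (1 : ℝ) ≤ n := by exact_mod_cast h
      gcongr
  have hinv : ∀ s : ℂ, 1 + η ≤ s.re → riemannZeta s ≠ 0 ∧ ‖(riemannZeta s)⁻¹‖ ≤ B := by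
    intro s hs
    have hs1 : 1 < s.re := by linarith
    have h0 : riemannZeta s ≠ 0 := riemannZeta_ne_zero_of_one_lt_re hs1
    refine ⟨h0, ?_⟩
    have h1 := ArithmeticFunction.LSeries_zeta_mul_Lseries_moebius hs1
    rw [ArithmeticFunction.LSeries_zeta_eq_riemannZeta hs1] at h1
    have h2 := inv_eq_of_mul_eq_one_right h1
    rw [h2]
    have hterm : ∀ n : ℕ, ‖LSeries.term (fun n => ((ArithmeticFunction.moebius n : ℤ) : ℂ)) s n‖ ≤
        1 / (n : ℝ) ^ (1 + η : ℝ) := by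
      intro n
      rw [LSeries.norm_term_eq]
      split_ifs with hn
      · positivity
      · have hn1 : (1 : ℝ) ≤ n := by exact_mod_cast Nat.one_le_iff_ne_zero.2 hn
        have hmu : ‖((ArithmeticFunction.moebius n : ℤ) : ℂ)‖ ≤ 1 := by
          rw [Complex.norm_intCast]
          exact_mod_cast ArithmeticFunction.abs_moebius_le_one
        gcongr
    exact tsum_of_norm_bounded hsum.hasSum hterm
  refine ⟨max 1 B, le_max_left _ _, fun w hw => ?_⟩
  obtain ⟨h0, h1⟩ := hinv w hw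
  refine ⟨h0, (hup w hw).trans (le_max_right _ _), ?_⟩
  rw [norm_inv] at h1
  exact inv_le_of_inv_le₀ (norm_pos_iff.2 h0) (h1.trans (le_max_right _ _))

/-- growth to the right of the critical line -/
theorem growth_right (ε : ℝ) (hε : 0 < ε) (hε1 : ε ≤ 1 / 16) : ∃ C t₀ : ℝ, 1 ≤ C ∧ 4 ≤ t₀ ∧
    ∀ s : ℂ, 1 / 2 ≤ s.re → t₀ ≤ s.im →
      ‖riemannZeta s‖ ≤ C * s.im ^ (max (1 - s.re) 0 / 3 + 16 * ε) := by
  obtain ⟨C1, hC1, h1⟩ := zeta_right ε hε
  obtain ⟨C2, h2⟩ := Pool.Agent.TH809.MZ.growth_weyl ε hε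
  obtain ⟨C3, hC3, h3⟩ := zeta_growth
  set C2' : ℝ := max C2 1 with hC2'
  have hC2'1 : 1 ≤ C2' := le_max_right _ _
  set h : ℝ := 10 / ε with hh
  have hh0 : 0 < h := by positivity
  have hl1 : 0 ≤ Real.log C1 := Real.log_nonneg hC1
  have hl2 : 0 ≤ Real.log C2' := Real.log_nonneg hC2'1
  have hl3 : 0 ≤ Real.log C3 := Real.log_nonneg hC3
  set K : ℝ := Real.log C1 + Real.log C2' + Real.log C3 + 4 with hK
  refine ⟨Real.exp K, 2 * h + 4, Real.one_le_exp (by positivity), by linarith, fun s hs ht => ?_⟩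
  have him0 : 0 < s.im := by linarith
  have him4 : 4 ≤ s.im := by linarith
  set ℓ := Real.log s.im with hℓ
  have hℓ1 : 1 ≤ ℓ := by
    rw [hℓ, Real.le_log_iff_exp_le him0]
    linarith [Real.exp_one_lt_d9]
  have hℓ0 : 0 < ℓ := by linarith
  have hrp : ∀ x : ℝ, s.im ^ x = Real.exp (x * ℓ) := by
    intro x
    rw [Real.rpow_def_of_pos him0, mul_comm]
  rw [hrp, ← Real.exp_add]
  rcases le_or_gt (1 + ε) s.re with h4 | h4
  · obtain ⟨k1, k2, k3⟩ := h1 s h4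
    refine k2.trans ?_
    have e : C1 = Real.exp (Real.log C1) := by rw [Real.exp_log (by linarith)]
    rw [e]
    apply Real.exp_le_exp.2
    have : 0 ≤ (max (1 - s.re) 0 / 3 + 16 * ε) * ℓ := by positivity
    linarith
  · have hlogim : ∀ w : ℂ, |w.im - s.im| ≤ h → |Real.log w.im - ℓ| ≤ 1 ∧ 2 ≤ w.im := by
      intro w hw
      refine ⟨log_near hh0.le (by linarith) (by linarith) hw, ?_⟩
      have := (abs_le.1 hw).1
      linarith
    refine three_gen (f := riemannZeta) (w1 := s) (σ1 := 1 / 2) (σ2 := 1 + ε) (h := h) (ℓ := ℓ) (κ := ε)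
      (α := 1 / 3) (A := Real.log C2' + (1 / 6 + ε) * (ℓ + 2)) (B := Real.log C1)
      (G := Real.log C3 + 2 * (ℓ + 1)) hℓ0 hε hh0 (by norm_num) (by norm_num)
      hs h4.le (by linarith) (by linarith) ?_ ?_ ?_ ?_ ?_ ?_ ?_
    · intro w _ _ hw
      exact differentiableAt_riemannZeta (ne_one_of_im (by linarith [(hlogim w hw).2]))
    · intro w hw1 hw
      have k := hlogim w hw
      have e : w = ⟨1 / 2, w.im⟩ := by
        apply Complex.ext
        · simpa using hw1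
        · rfl
      rw [e]
      refine (h2 w.im).trans ?_
      rw [abs_of_nonneg (by linarith [k.2] : (0 : ℝ) ≤ w.im), Real.exp_add, Real.exp_log (by linarith)]
      have h5 : 1 + w.im ≤ Real.exp (ℓ + 2) := by
        have h6 : w.im ≤ Real.exp (ℓ + 1) := by
          rw [← Real.log_le_iff_le_exp (by linarith [k.2])]
          linarith [(abs_le.1 k.1).2]
        have h7 : Real.exp (ℓ + 2) = Real.exp (ℓ + 1) * Real.exp 1 := by
          rw [← Real.exp_add]; congr 1; ring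
        rw [h7]
        have : (2 : ℝ) ≤ Real.exp 1 := by linarith [Real.exp_one_gt_d9]
        nlinarith [k.2, Real.exp_pos (ℓ + 1)]
      have h6 : (1 + w.im) ^ (1 / 6 + ε) ≤ Real.exp ((1 / 6 + ε) * (ℓ + 2)) := by
        calc (1 + w.im) ^ (1 / 6 + ε) ≤ (Real.exp (ℓ + 2)) ^ (1 / 6 + ε) := by
              apply Real.rpow_le_rpow (by linarith [k.2]) h5 (by linarith)
          _ = _ := by rw [← Real.exp_mul, mul_comm]
      have h8 : (0 : ℝ) ≤ (1 + w.im) ^ (1 / 6 + ε) := by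
        apply Real.rpow_nonneg; linarith [k.2]
      calc C2 * (1 + w.im) ^ (1 / 6 + ε) ≤ C2' * (1 + w.im) ^ (1 / 6 + ε) := by
            gcongr
            exact le_max_left _ _
        _ ≤ _ := by gcongr
    · intro w hw1 hw
      refine ((h1 w (by rw [hw1])).2.1).trans ?_
      rw [Real.exp_log (by linarith)]
    · intro w hw1 hw2 hw
      have k := hlogim w hw
      have h5 := h3 w (by linarith) (by linarith [k.2])
      have h6 : w.im ≤ Real.exp (ℓ + 1) := by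
        rw [← Real.log_le_iff_le_exp (by linarith [k.2])]
        linarith [(abs_le.1 k.1).2]
      rw [Real.exp_add, Real.exp_log (by linarith)]
      have e : Real.exp (2 * (ℓ + 1)) = Real.exp (ℓ + 1) ^ 2 := by
        rw [← Real.exp_nat_mul]; norm_num
      rw [e]
      refine h5.trans ?_
      have : 0 ≤ w.im := by linarith [k.2]
      gcongr
    · have h5 : (1 - s.re) ≤ max (1 - s.re) 0 := le_max_left _ _
      have h6 : ((1 - s.re) / 3) * ℓ ≤ (max (1 - s.re) 0 / 3) * ℓ := by gcongr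
      have h7 : ε * 1 ≤ ε * ℓ := by gcongr
      nlinarith
    · have h5 : (1 - s.re) ≤ max (1 - s.re) 0 := le_max_left _ _
      have h6 : ((1 - s.re) / 3) * ℓ ≤ (max (1 - s.re) 0 / 3) * ℓ := by gcongr
      have h7 : ε * 1 ≤ ε * ℓ := by gcongr
      nlinarith
    · have h5 : ε * h ^ 2 = 100 / ε := by
        rw [hh]; field_simp; norm_num
      have h6 : 1600 ≤ 100 / ε := by
        rw [le_div_iff₀ hε]; linarith
      have h7 : ℓ * (3 + 9 * ε - ε * h ^ 2) ≤ ℓ * (-100) := by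
        gcongr
        rw [h5]; linarith
      have h8 : 0 ≤ (max (1 - s.re) 0 / 3 + 16 * ε) * ℓ := by positivity
      linarith

/-- The subconvex bound used below. -/
theorem sub_bound (a : ℝ) (ha0 : 0 < a) (ha1 : a < 1 / 2) : ∃ κ η C t₀ : ℝ, 0 < κ ∧ 0 < η ∧ 1 ≤ C ∧
    4 ≤ t₀ ∧ ∀ s : ℂ, 1 - 2 * a - η ≤ s.re → t₀ ≤ s.im → ‖riemannZeta s‖ ≤ C * s.im ^ (a - κ) := by
  set κ : ℝ := min (a / 3) ((1 / 2 - a) / 3) / 4 with hκ
  have hκ0 : 0 < κ := by
    have h1 : 0 < a / 3 := by positivity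
    have h2 : 0 < (1 / 2 - a) / 3 := by linarith
    positivity
  have hκ1 : 4 * κ ≤ a / 3 := by rw [hκ]; linarith [min_le_left (a / 3) ((1 / 2 - a) / 3)]
  have hκ2 : 4 * κ ≤ (1 / 2 - a) / 3 := by rw [hκ]; linarith [min_le_right (a / 3) ((1 / 2 - a) / 3)]
  obtain ⟨C1, t1, hC1, ht1, h1⟩ := growth_right (κ / 16) (by positivity) (by linarith)
  obtain ⟨K, hK, h2⟩ := H345.Chi.XX_size
  refine ⟨κ, κ, Real.exp K * C1, t1, hκ0, hκ0, ?_, ht1, fun s hs ht => ?_⟩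
  · have : 1 ≤ Real.exp K := Real.one_le_exp hK.le
    nlinarith
  have him : 1 ≤ s.im := by linarith
  have hexpK : 1 ≤ Real.exp K := Real.one_le_exp hK.le
  rcases le_or_gt (1 / 2) s.re with h3 | h3
  · refine (h1 s h3 ht).trans ?_
    have h4 : max (1 - s.re) 0 / 3 + 16 * (κ / 16) ≤ a - κ := by
      have h5 : max (1 - s.re) 0 ≤ 2 * a + κ := max_le (by linarith) (by linarith)
      linarith
    have h5 : s.im ^ (max (1 - s.re) 0 / 3 + 16 * (κ / 16)) ≤ s.im ^ (a - κ) :=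
      Real.rpow_le_rpow_of_exponent_le him h4
    calc C1 * s.im ^ (max (1 - s.re) 0 / 3 + 16 * (κ / 16)) ≤ C1 * s.im ^ (a - κ) := by gcongr
      _ = 1 * C1 * s.im ^ (a - κ) := by ring
      _ ≤ _ := by gcongr
  · -- reflect
    set w : ℂ := ⟨1 - s.re, s.im⟩ with hw
    have hwre : w.re = 1 - s.re := rfl
    have hwim : w.im = s.im := rfl
    have hs0 : 0 < s.re := by linarith
    have e1 : ‖riemannZeta s‖ = ‖Zf w‖ := by
      have := norm_zeta_refl (1 - s.re) s.im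
      rw [sub_sub_cancel] at this
      exact this
    rw [e1, Zf_eq (by rw [hwre]; linarith) (by rw [hwim]; linarith), norm_mul]
    have h4 := (h2 w (by rw [hwre]; linarith) (by rw [hwre]; linarith) (by rw [hwim]; exact him)).2
    have h5 := h1 w (by rw [hwre]; linarith) (by rw [hwim]; exact ht)
    rw [hwre, hwim] at h4 h5
    have h6 : (1 - s.re - 1 / 2) + (max (1 - (1 - s.re)) 0 / 3 + 16 * (κ / 16)) ≤ a - κ := by
      have h7 : max (1 - (1 - s.re)) 0 = s.re := by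
        rw [sub_sub_cancel]; exact max_eq_left hs0.le
      rw [h7]
      linarith
    calc ‖H345.XX w‖ * ‖riemannZeta w‖
        ≤ (Real.exp K * s.im ^ (1 - s.re - 1 / 2)) *
          (C1 * s.im ^ (max (1 - (1 - s.re)) 0 / 3 + 16 * (κ / 16))) := by gcongr
      _ = Real.exp K * C1 * s.im ^ ((1 - s.re - 1 / 2) +
          (max (1 - (1 - s.re)) 0 / 3 + 16 * (κ / 16))) := by
          rw [Real.rpow_add (by linarith) (1 - s.re - 1 / 2)]; ring
      _ ≤ _ := by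
        gcongr

end Pool.Agent.N799.TL
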