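import Pool.Agent.H24R2.JP.B1
import Pool.Agent.H24R2.JP.Gam
import Pool.Agent.H24R2.JP.Mom
import Pool.Agent.H24R2.JP.Grow
import Pool.Agent.H24R2.JP.Had
import Pool.Agent.H24R2.JP.Zeros

/-!
# Zeros of `ξ(s + a) + c ξ(s - a)` on the critical line
-/

set_option autoImplicit false

open Complex Filter Topology Polynomial

namespace Pool.Agent.N799.TL

open Pool.Agent.H24R2.JP Pool.Agent.H24R2.JP.B1h

theorem hadF : ∃ P : ℕ → ℝ[X], (∀ (N : ℕ) (x : ℂ), aeval x (P N) = 0 → FF x = 0) ∧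
    TendstoLocallyUniformly (fun (N : ℕ) (x : ℂ) => aeval x (P N)) FF atTop := by
  obtain ⟨K, hK⟩ := grow b1
  have h0 : FF 0 ≠ 0 := by
    have h1 := b1.2.2.2 0
    rw [iteratedDeriv_zero] at h1
    rw [h1]
    exact_mod_cast ((gamS mom).1 0).ne'
  exact had FF K b1.1 h0 b1.2.2.1 hK

/-- the elementary inequality -/
theorem pair_ineq {x u a : ℝ} (hx : 0 ≤ x) (ha : 0 ≤ a) (hu : |u| ≤ a) (Y : ℝ) (hY : 0 ≤ Y) :
    ((x - a - u) ^ 2 + Y) * ((x - a + u) ^ 2 + Y) ≤ ((x + a - u) ^ 2 + Y) * ((x + a + u) ^ 2 + Y) := by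
  have hu2 : u ^ 2 ≤ a ^ 2 := by
    rw [← sq_abs u]
    exact pow_le_pow_left₀ (abs_nonneg _) hu 2
  have e : ((x + a - u) ^ 2 + Y) * ((x + a + u) ^ 2 + Y) - ((x - a - u) ^ 2 + Y) * ((x - a + u) ^ 2 + Y)
      = 4 * (x * a) * (2 * x ^ 2 + 2 * a ^ 2 - 2 * u ^ 2 + 2 * Y) := by ring
  have h1 : 0 ≤ 4 * (x * a) * (2 * x ^ 2 + 2 * a ^ 2 - 2 * u ^ 2 + 2 * Y) := by
    apply mul_nonneg (by positivity)
    nlinarith [sq_nonneg x]
  linarith

theorem normSq_sub (z : ℂ) (r i : ℝ) (hr : z.re = r) (hi : z.im = i) : ‖z‖ ^ 2 = r ^ 2 + i ^ 2 := by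
  rw [← Complex.normSq_eq_norm_sq, Complex.normSq_apply, hr, hi]
  ring

theorem le_of_sq_le_sq {x y : ℝ} (h : x ^ 2 ≤ y ^ 2) (hy : 0 ≤ y) : x ≤ y :=
  (le_abs_self x).trans (abs_le_of_sq_le_sq h hy)

/-- the inequality for one pair of conjugate zeros -/
theorem fac_ineq {z w : ℂ} {a : ℝ} (hz : 0 ≤ z.re) (ha : 0 ≤ a) (hw : |w.re| ≤ a) :
    ‖(z - a) ^ 2 - w ^ 2‖ * ‖(z - a) ^ 2 - (starRingEnd ℂ) (w ^ 2)‖ ≤
      ‖(z + a) ^ 2 - w ^ 2‖ * ‖(z + a) ^ 2 - (starRingEnd ℂ) (w ^ 2)‖ := by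
  have key : ∀ p : ℂ, (‖p ^ 2 - w ^ 2‖ * ‖p ^ 2 - (starRingEnd ℂ) (w ^ 2)‖) ^ 2 =
      (((p.re - w.re) ^ 2 + (p.im - w.im) ^ 2) * ((p.re + w.re) ^ 2 + (p.im - w.im) ^ 2)) *
      (((p.re - w.re) ^ 2 + (p.im + w.im) ^ 2) * ((p.re + w.re) ^ 2 + (p.im + w.im) ^ 2)) := by
    intro p
    have e1 : p ^ 2 - w ^ 2 = (p - w) * (p + w) := by ring
    have e2 : p ^ 2 - (starRingEnd ℂ) (w ^ 2) = (p - (starRingEnd ℂ) w) * (p + (starRingEnd ℂ) w) := by
      rw [map_pow]; ring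
    rw [e1, e2, norm_mul, norm_mul, mul_pow, mul_pow, mul_pow,
      normSq_sub (p - w) (p.re - w.re) (p.im - w.im) (by simp) (by simp),
      normSq_sub (p + w) (p.re + w.re) (p.im + w.im) (by simp) (by simp),
      normSq_sub (p - (starRingEnd ℂ) w) (p.re - w.re) (p.im + w.im) (by simp) (by simp),
      normSq_sub (p + (starRingEnd ℂ) w) (p.re + w.re) (p.im - w.im) (by simp) (by simp; ring)]
    ring
  have h1 : (‖(z - a) ^ 2 - w ^ 2‖ * ‖(z - a) ^ 2 - (starRingEnd ℂ) (w ^ 2)‖) ^ 2 ≤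
      (‖(z + a) ^ 2 - w ^ 2‖ * ‖(z + a) ^ 2 - (starRingEnd ℂ) (w ^ 2)‖) ^ 2 := by
    rw [key, key]
    have e1 : (z - a).re = z.re - a := by simp
    have e2 : (z - a).im = z.im := by simp
    have e3 : (z + a).re = z.re + a := by simp
    have e4 : (z + a).im = z.im := by simp
    rw [e1, e2, e3, e4]
    have k1 := pair_ineq hz ha hw ((z.im - w.im) ^ 2) (sq_nonneg _)
    have k2 := pair_ineq hz ha hw ((z.im + w.im) ^ 2) (sq_nonneg _)
    apply mul_le_mul k1 k2 (by positivity) (by positivity)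
  exact le_of_sq_le_sq h1 (by positivity)

/-- value of a real polynomial -/
theorem poly_norm (P : ℝ[X]) (x : ℂ) : ‖aeval x P‖ ^ 2 = |P.leadingCoeff| ^ 2 *
    (((P.map (algebraMap ℝ ℂ)).roots.map fun r => ‖x - r‖ * ‖x - (starRingEnd ℂ) r‖)).prod := by
  set Q := P.map (algebraMap ℝ ℂ) with hQ
  have h1 : ∀ y : ℂ, ‖aeval y P‖ = |P.leadingCoeff| * ((Q.roots.map fun r => ‖y - r‖)).prod := by
    intro y
    have e1 : aeval y P = Q.eval y := by
      rw [hQ, eval_map_algebraMap]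
    have e2 := (IsAlgClosed.splits Q).eval_eq_prod_roots y
    have e3 : Q.leadingCoeff = (P.leadingCoeff : ℂ) := by
      rw [hQ, Polynomial.leadingCoeff_map]
      rfl
    rw [e1, e2, norm_mul, e3, Complex.norm_real, Real.norm_eq_abs]
    congr 1
    have e4 := map_multiset_prod (normHom (α := ℂ)) (Q.roots.map fun r => y - r)
    rw [Multiset.map_map] at e4
    exact e4
  have h2 : ‖aeval x P‖ = |P.leadingCoeff| * ((Q.roots.map fun r => ‖x - (starRingEnd ℂ) r‖)).prod := by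
    have e1 : aeval ((starRingEnd ℂ) x) P = (starRingEnd ℂ) (aeval x P) := by
      have := Polynomial.aeval_conj P x
      exact this
    have e2 := h1 ((starRingEnd ℂ) x)
    rw [e1, Complex.norm_conj] at e2
    rw [e2]
    congr 2
    apply Multiset.map_congr rfl
    intro r _
    rw [← Complex.norm_conj]
    simp
  calc ‖aeval x P‖ ^ 2 = ‖aeval x P‖ * ‖aeval x P‖ := pow_two _
    _ = (|P.leadingCoeff| * ((Q.roots.map fun r => ‖x - r‖)).prod) *
        (|P.leadingCoeff| * ((Q.roots.map fun r => ‖x - (starRingEnd ℂ) r‖)).prod) := by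
        rw [← h1, ← h2]
    _ = |P.leadingCoeff| ^ 2 * (((Q.roots.map fun r => ‖x - r‖)).prod *
        ((Q.roots.map fun r => ‖x - (starRingEnd ℂ) r‖)).prod) := by ring
    _ = _ := by rw [← Multiset.prod_map_mul]

/-- monotonicity of the modulus across the shift -/
theorem XX_le {a : ℝ} (ha : 0 ≤ a) (hz : ∀ w : ℂ, XX w = 0 → |w.re| ≤ a) {z : ℂ} (hz0 : 0 ≤ z.re) :
    ‖XX (z - a)‖ ≤ ‖XX (z + a)‖ := by
  obtain ⟨P, hP1, hP2⟩ := hadF
  have hlim : ∀ x : ℂ, Tendsto (fun N => ‖aeval x (P N)‖ ^ 2) atTop (𝓝 (‖FF x‖ ^ 2)) := by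
    intro x
    have h1 : Tendsto (fun N => aeval x (P N)) atTop (𝓝 (FF x)) := (tendstoLocallyUniformlyOn_univ.2 hP2).tendsto_at (Set.mem_univ x)
    exact (h1.norm).pow 2
  have hle : ∀ N, ‖aeval ((z - a) ^ 2) (P N)‖ ^ 2 ≤ ‖aeval ((z + a) ^ 2) (P N)‖ ^ 2 := by
    intro N
    rw [poly_norm, poly_norm]
    apply mul_le_mul_of_nonneg_left _ (by positivity)
    apply Multiset.prod_map_le_prod_map₀
    · intro r _
      positivity
    · intro r hr
      have h1 : aeval r (P N) = 0 := by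
        have := (Polynomial.mem_roots'.1 hr).2
        rwa [IsRoot, eval_map_algebraMap] at this
      have h2 := hP1 N r h1
      obtain ⟨w, hw⟩ := IsAlgClosed.exists_pow_nat_eq r (n := 2) (by norm_num)
      rw [← hw, FF_sq] at h2
      rw [← hw]
      exact fac_ineq hz0 ha (hz w h2)
  have h1 := le_of_tendsto_of_tendsto' (hlim ((z - a) ^ 2)) (hlim ((z + a) ^ 2)) hle
  rw [FF_sq, FF_sq] at h1
  exact le_of_sq_le_sq h1 (norm_nonneg _)

/-- strict growth on the real axis -/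
theorem XX_strict {a : ℝ} (ha : 0 < a) : ‖XX (a : ℂ)‖ < ‖XX ((3 * a : ℝ) : ℂ)‖ := by
  have hpos := (gamS mom).1
  have hs : ∀ t : ℝ, HasSum (fun k : ℕ => gam k / (k.factorial : ℝ) * (t ^ 2) ^ k) (XX (t : ℂ)).re := by
    intro t
    have h1 := Complex.hasSum_re (hasSum_XX (t : ℂ))
    have e : (fun k : ℕ => gam k / (k.factorial : ℝ) * (t ^ 2) ^ k) =
        fun k : ℕ => (((gam k : ℝ) : ℂ) / (k.factorial : ℂ) * ((t : ℂ) ^ 2) ^ k).re := by
      funext k
      have : ((gam k : ℝ) : ℂ) / (k.factorial : ℂ) * ((t : ℂ) ^ 2) ^ k =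
          ((gam k / (k.factorial : ℝ) * (t ^ 2) ^ k : ℝ) : ℂ) := by push_cast; ring
      rw [this, Complex.ofReal_re]
    rw [e]
    exact h1
  have him : ∀ t : ℝ, (XX (t : ℂ)).im = 0 := by
    intro t
    have h1 := XX_conj (t : ℂ)
    rw [Complex.conj_ofReal] at h1
    exact Complex.conj_eq_iff_im.1 h1.symm
  have hn : ∀ t : ℝ, ‖XX (t : ℂ)‖ = |(XX (t : ℂ)).re| := by
    intro t
    have : XX (t : ℂ) = ((XX (t : ℂ)).re : ℂ) := by
      apply Complex.ext
      · simp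
      · simp [him t]
    rw [this, Complex.norm_real, Real.norm_eq_abs, Complex.ofReal_re]
  have hnn : ∀ t : ℝ, 0 ≤ (XX (t : ℂ)).re := by
    intro t
    refine (hs t).nonneg fun k => ?_
    have := (hpos k).le
    positivity
  rw [hn, hn, abs_of_nonneg (hnn _), abs_of_nonneg (hnn _)]
  refine hasSum_lt (f := fun k : ℕ => gam k / (k.factorial : ℝ) * (a ^ 2) ^ k)
    (g := fun k : ℕ => gam k / (k.factorial : ℝ) * ((3 * a) ^ 2) ^ k) (i := 1) ?_ ?_ (hs a) (hs (3 * a))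
  · intro k
    have h1 := (hpos k).le
    have h2 : a ^ 2 ≤ (3 * a) ^ 2 := by nlinarith
    simp only
    gcongr
  · have h1 := hpos 1
    simp only [Nat.factorial_one, Nat.cast_one, div_one, pow_one]
    have h2 : a ^ 2 < (3 * a) ^ 2 := by nlinarith
    gcongr

/-- no zeros in the right half plane -/
theorem right_ne {a : ℝ} (ha : 0 < a) (hz : ∀ w : ℂ, XX w = 0 → |w.re| ≤ a) {c : ℂ} (hc : ‖c‖ = 1)
    {z0 : ℂ} (hz0 : 0 < z0.re) : XX (z0 + a) + c * XX (z0 - a) ≠ 0 := by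
  intro h0
  have hne : ∀ z : ℂ, 0 < z.re → XX (z + a) ≠ 0 := by
    intro z hz1 h1
    have h2 := (abs_le.1 (hz _ h1)).2
    have e : (z + a).re = z.re + a := by simp
    rw [e] at h2
    linarith
  set q : ℂ → ℂ := fun z => XX (z - a) / XX (z + a) with hq
  have hq1 : ∀ z : ℂ, 0 < z.re → ‖q z‖ ≤ 1 := by
    intro z hz1
    simp only [hq]
    rw [norm_div, div_le_one (norm_pos_iff.2 (hne z hz1))]
    exact XX_le ha.le hz hz1.le
  have hqz0 : ‖q z0‖ = 1 := by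
    simp only [hq]
    have h1 : XX (z0 + a) = -(c * XX (z0 - a)) := eq_neg_of_add_eq_zero_left h0
    have h2 : ‖XX (z0 + a)‖ = ‖XX (z0 - a)‖ := by
      rw [h1, norm_neg, norm_mul, hc, one_mul]
    rw [norm_div, ← h2, div_self (norm_ne_zero_iff.2 (hne z0 hz0))]
  have hU : IsOpen {z : ℂ | 0 < z.re} := isOpen_lt continuous_const continuous_re
  have hconn : IsPreconnected {z : ℂ | 0 < z.re} := (convex_halfSpace_re_gt 0).isPreconnected
  have hqd : DifferentiableOn ℂ q {z : ℂ | 0 < z.re} := by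
    intro z hz1
    have h1 : DifferentiableAt ℂ (fun z : ℂ => XX (z - a)) z :=
      (XX_diff (z - a)).comp z (differentiableAt_id.sub_const (a : ℂ))
    have h2 : DifferentiableAt ℂ (fun z : ℂ => XX (z + a)) z :=
      (XX_diff (z + a)).comp z (differentiableAt_id.add_const (a : ℂ))
    exact (h1.div h2 (hne z hz1)).differentiableWithinAt
  have hmax : IsMaxOn (norm ∘ q) {z : ℂ | 0 < z.re} z0 := by
    intro z hz1
    simp only [Function.comp, Set.mem_ofPred_eq]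
    rw [hqz0]
    exact hq1 z hz1
  have hconst := Complex.eqOn_of_isPreconnected_of_isMaxOn_norm hconn hU hqd hz0 hmax
  have h2a : (0 : ℝ) < ((2 * a : ℝ) : ℂ).re := by simp; exact ha
  have h3 := hconst h2a
  simp only [Function.const_apply] at h3
  have h4 : ‖q ((2 * a : ℝ) : ℂ)‖ = 1 := by rw [h3]; exact hqz0
  simp only [hq] at h4
  have e1 : ((2 * a : ℝ) : ℂ) - a = (a : ℂ) := by push_cast; ring
  have e2 : ((2 * a : ℝ) : ℂ) + a = ((3 * a : ℝ) : ℂ) := by push_cast; ring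
  rw [e1, e2, norm_div] at h4
  have h5 := XX_strict ha
  have h6 : 0 < ‖XX ((3 * a : ℝ) : ℂ)‖ := lt_of_le_of_lt (norm_nonneg _) h5
  rw [div_eq_one_iff_eq h6.ne'] at h4
  linarith

/-- all zeros on the imaginary axis -/
theorem on_line {a : ℝ} (ha : 0 < a) (hz : ∀ w : ℂ, XX w = 0 → |w.re| ≤ a) {c : ℂ} (hc : ‖c‖ = 1)
    {z : ℂ} (h0 : XX (z + a) + c * XX (z - a) = 0) : z.re = 0 := by
  rcases lt_trichotomy z.re 0 with h | h | h
  · exfalso
    have hcc : (starRingEnd ℂ) c * c = 1 := by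
      rw [Complex.conj_mul', hc]; norm_num
    refine right_ne ha hz (c := (starRingEnd ℂ) c) (by rw [Complex.norm_conj]; exact hc)
      (z0 := -z) (by rw [neg_re]; linarith) ?_
    have e1 : -z + a = -(z - a) := by ring
    have e2 : -z - a = -(z + a) := by ring
    rw [e1, e2, XX_neg, XX_neg]
    have h1 : (starRingEnd ℂ) c * (XX (z + a) + c * XX (z - a)) = 0 := by rw [h0, mul_zero]
    have h2 : (starRingEnd ℂ) c * (XX (z + a) + c * XX (z - a)) =
        XX (z - a) * ((starRingEnd ℂ) c * c) + (starRingEnd ℂ) c * XX (z + a) := by ring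
    rw [h2, hcc, mul_one] at h1
    exact h1
  · exact h
  · exact absurd h0 (right_ne ha hz hc h)

end Pool.Agent.N799.TL
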