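import Pool.Agent.N799.TL.Growth
import Pool.Agent.N799.TL.Line

/-!
# Zeros of `ξ(s + a) + c ξ(s - a)` near the edge of the strip
-/

set_option autoImplicit false

open Complex Metric Set Filter Topology

namespace Pool.Agent.N799.TL

open Pool.Agent.N799.SP
open Pool.Agent.H24R2.JP (XX)

/-- the factor with `8 ξ = GX ζ` -/
noncomputable def GX (s : ℂ) : ℂ := 4 * (s * (s - 1)) * Gammaℝ s

theorem GR_ne {s : ℂ} (hs : s.im ≠ 0) : Gammaℝ s ≠ 0 := by
  intro h
  rw [Gammaℝ_eq_zero_iff] at h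
  obtain ⟨n, hn⟩ := h
  apply hs
  rw [hn]
  simp

theorem GX_ne {s : ℂ} (hs : s.im ≠ 0) : GX s ≠ 0 := by
  unfold GX
  have h0 : s ≠ 0 := by
    intro h; rw [h] at hs; simp at hs
  have h1 : s - 1 ≠ 0 := sub_ne_zero.2 (ne_one_of_im hs)
  exact mul_ne_zero (mul_ne_zero (by norm_num) (mul_ne_zero h0 h1)) (GR_ne hs)

theorem XX_fac {s : ℂ} (hs : s.im ≠ 0) : XX (s - 1 / 2) = GX s * riemannZeta s := by
  have h0 : s ≠ 0 := by
    intro h; rw [h] at hs; simp at hs
  have h1 : (1 : ℂ) - s ≠ 0 := sub_ne_zero.2 (ne_one_of_im hs).symm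
  have e : (1 / 2 : ℂ) + (s - 1 / 2) = s := by ring
  rw [Pool.Agent.H24R2.JP.Zer.XX_eq (s - 1 / 2) (by rw [e]; exact h0) (by rw [e]; exact h1), e]
  have h3 := riemannZeta_def_of_ne_zero h0
  have h4 := GR_ne hs
  have h5 : completedRiemannZeta s = Gammaℝ s * riemannZeta s := by
    rw [h3, mul_div_cancel₀ _ h4]
  rw [h5]
  unfold GX
  ring

theorem GR_diff {s : ℂ} (hs : s.im ≠ 0) : DifferentiableAt ℂ Gammaℝ s := by
  have h1 : DifferentiableAt ℂ (fun s => (Gammaℝ s)⁻¹) s := differentiable_Gammaℝ_inv s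
  have h2 := h1.inv (inv_ne_zero (GR_ne hs))
  have h4 : (fun s => (Gammaℝ s)⁻¹)⁻¹ = Gammaℝ := by
    funext s
    simp
  rw [h4] at h2
  exact h2

theorem GX_diff {s : ℂ} (hs : s.im ≠ 0) : DifferentiableAt ℂ GX s := by
  unfold GX
  exact ((differentiableAt_id.mul (differentiableAt_id.sub_const 1)).const_mul 4).mul (GR_diff hs)

/-- the ratio of the factors -/
noncomputable def RR (a : ℝ) (s : ℂ) : ℂ := GX (s - a) / GX (s + a)

/-- `ξ(s + a) + c ξ(s - a)` divided by the factor at `s + a` -/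
noncomputable def QQ (a : ℝ) (c : ℂ) (s : ℂ) : ℂ :=
  riemannZeta (s + a) + c * (RR a s * riemannZeta (s - a))

theorem im_add (s : ℂ) (a : ℝ) : (s + a).im = s.im := by simp
theorem im_sub' (s : ℂ) (a : ℝ) : (s - a).im = s.im := by simp
theorem re_add' (s : ℂ) (a : ℝ) : (s + a).re = s.re + a := by simp
theorem re_sub' (s : ℂ) (a : ℝ) : (s - a).re = s.re - a := by simp

theorem QQ_diff {a : ℝ} {c s : ℂ} (hs : s.im ≠ 0) : DifferentiableAt ℂ (QQ a c) s := by
  have i1 : (s + a).im ≠ 0 := by rw [im_add]; exact hs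
  have i2 : (s - a).im ≠ 0 := by rw [im_sub']; exact hs
  have d1 : DifferentiableAt ℂ (fun s : ℂ => s + a) s := differentiableAt_id.add_const _
  have d2 : DifferentiableAt ℂ (fun s : ℂ => s - a) s := differentiableAt_id.sub_const _
  have h1 : DifferentiableAt ℂ (fun s : ℂ => riemannZeta (s + a)) s :=
    DifferentiableAt.comp s (differentiableAt_riemannZeta (ne_one_of_im i1)) d1
  have h2 : DifferentiableAt ℂ (fun s : ℂ => riemannZeta (s - a)) s :=
    DifferentiableAt.comp s (differentiableAt_riemannZeta (ne_one_of_im i2)) d2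
  have h3 : DifferentiableAt ℂ (fun s : ℂ => GX (s + a)) s :=
    DifferentiableAt.comp s (GX_diff i1) d1
  have h4 : DifferentiableAt ℂ (fun s : ℂ => GX (s - a)) s :=
    DifferentiableAt.comp s (GX_diff i2) d2
  have h5 : DifferentiableAt ℂ (RR a) s := h4.div h3 (GX_ne i1)
  exact h1.add ((h5.mul h2).const_mul c)

theorem QQ_eq {a : ℝ} {c s : ℂ} (hs : s.im ≠ 0) :
    XX (s - 1 / 2 + a) + c * XX (s - 1 / 2 - a) = GX (s + a) * QQ a c s := by
  have i1 : (s + a).im ≠ 0 := by rw [im_add]; exact hs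
  have i2 : (s - a).im ≠ 0 := by rw [im_sub']; exact hs
  have e1 : s - 1 / 2 + a = (s + a) - 1 / 2 := by ring
  have e2 : s - 1 / 2 - a = (s - a) - 1 / 2 := by ring
  rw [e1, e2, XX_fac i1, XX_fac i2]
  unfold QQ RR
  have := GX_ne i1
  field_simp

theorem RR_bound {a : ℝ} (ha0 : 0 < a) (ha1 : a < 1 / 2) {s : ℂ} (hs : 0 ≤ s.re) (him : 1 ≤ s.im) :
    ‖RR a s‖ ≤ 4000 * s.im ^ (-a) := by
  have i1 : (s + a).im ≠ 0 := by rw [im_add]; linarith
  have h1 := Pool.Agent.TH809.MZ.gammaR_low (w := s - a) (x := a) ha0.le (by linarith)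
    (by rw [re_sub']; linarith) (by rw [im_sub', abs_of_nonneg (by linarith)]; exact him)
  rw [im_sub', abs_of_nonneg (by linarith : (0 : ℝ) ≤ s.im)] at h1
  have e1 : s - (a : ℂ) + 2 * (a : ℂ) = s + a := by ring
  rw [e1] at h1
  have hG2 := GR_ne i1
  have hG1 : Gammaℝ (s - a) ≠ 0 := GR_ne (by rw [im_sub']; linarith)
  have hg1 := norm_pos_iff.2 hG1
  have hg2 := norm_pos_iff.2 hG2
  have hp : 0 < s.im ^ a := Real.rpow_pos_of_pos (by linarith) _
  have h2 : ‖Gammaℝ (s - a)‖ / ‖Gammaℝ (s + a)‖ ≤ 1000 * s.im ^ (-a) := by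
    rw [Real.rpow_neg (by linarith), div_le_iff₀ hg2]
    rw [norm_inv] at h1
    have h3 : s.im ^ a * ‖Gammaℝ (s - a)‖ ≤ 1000 * ‖Gammaℝ (s + a)‖ := by
      calc s.im ^ a * ‖Gammaℝ (s - a)‖
          ≤ (1000 * (‖Gammaℝ (s + a)‖ * ‖Gammaℝ (s - a)‖⁻¹)) * ‖Gammaℝ (s - a)‖ := by gcongr
        _ = _ := by field_simp
    calc ‖Gammaℝ (s - a)‖ = (s.im ^ a)⁻¹ * (s.im ^ a * ‖Gammaℝ (s - a)‖) := by field_simp
      _ ≤ (s.im ^ a)⁻¹ * (1000 * ‖Gammaℝ (s + a)‖) := by gcongr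
      _ = _ := by ring
  have n1 : 1 ≤ ‖s + a‖ := by
    have := (le_abs_self _).trans (abs_im_le_norm (s + a))
    rw [im_add] at this; linarith
  have n2 : 1 ≤ ‖s + a - 1‖ := by
    have := (le_abs_self _).trans (abs_im_le_norm (s + a - 1))
    have e : (s + a - 1).im = s.im := by simp
    rw [e] at this; linarith
  have hna : ‖((2 * a : ℝ) : ℂ)‖ ≤ 1 := by
    rw [Complex.norm_real, Real.norm_of_nonneg (by linarith)]; linarith
  have n3 : ‖s - a‖ ≤ 2 * ‖s + a‖ := by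
    have : s - a = (s + a) - ((2 * a : ℝ) : ℂ) := by push_cast; ring
    rw [this]
    refine (norm_sub_le _ _).trans ?_
    linarith
  have n4 : ‖s - a - 1‖ ≤ 2 * ‖s + a - 1‖ := by
    have : s - a - 1 = (s + a - 1) - ((2 * a : ℝ) : ℂ) := by push_cast; ring
    rw [this]
    refine (norm_sub_le _ _).trans ?_
    linarith
  unfold RR GX
  rw [norm_div, norm_mul, norm_mul, norm_mul, norm_mul, norm_mul, norm_mul]
  have h4 : (‖(4 : ℂ)‖ * (‖s - a‖ * ‖s - a - 1‖)) / (‖(4 : ℂ)‖ * (‖s + a‖ * ‖s + a - 1‖)) ≤ 4 := by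
    have hn1 : 0 < ‖s + a‖ := by linarith
    have hn2 : 0 < ‖s + a - 1‖ := by linarith
    have hn4 : 0 < ‖(4 : ℂ)‖ := norm_pos_iff.2 (by norm_num)
    rw [div_le_iff₀ (mul_pos hn4 (mul_pos hn1 hn2))]
    have : ‖s - a‖ * ‖s - a - 1‖ ≤ (2 * ‖s + a‖) * (2 * ‖s + a - 1‖) := by gcongr
    have h5 : (0 : ℝ) ≤ ‖(4 : ℂ)‖ := norm_nonneg _
    nlinarith
  calc ‖(4 : ℂ)‖ * (‖s - a‖ * ‖s - a - 1‖) * ‖Gammaℝ (s - a)‖ /
        (‖(4 : ℂ)‖ * (‖s + a‖ * ‖s + a - 1‖) * ‖Gammaℝ (s + a)‖)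
      = ((‖(4 : ℂ)‖ * (‖s - a‖ * ‖s - a - 1‖)) / (‖(4 : ℂ)‖ * (‖s + a‖ * ‖s + a - 1‖))) *
        (‖Gammaℝ (s - a)‖ / ‖Gammaℝ (s + a)‖) := by
        rw [div_mul_div_comm]
    _ ≤ 4 * (1000 * s.im ^ (-a)) := by
        gcongr
    _ = _ := by ring

/-- `Q` is dominated by its first term to the right of the edge. -/
theorem QQ_edge (a ε : ℝ) (ha0 : 0 < a) (ha1 : a < 1 / 2) (hε : 0 < ε) : ∃ t₀ : ℝ, 4 ≤ t₀ ∧
    ∀ (c s : ℂ), ‖c‖ = 1 → 1 - a + ε ≤ s.re → t₀ ≤ s.im → QQ a c s ≠ 0 := by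
  obtain ⟨C1, hC1, h1⟩ := zeta_right ε hε
  obtain ⟨κ, η, C2, t1, hκ, hη, hC2, ht1, h2⟩ := sub_bound a ha0 ha1
  obtain ⟨t2, ht2, h3⟩ := log_large ((Real.log (4000 * C2 * C1) + 1) / κ)
  refine ⟨max t1 t2, ht1.trans (le_max_left _ _), fun c s hc hs ht h0 => ?_⟩
  have him : 4 ≤ s.im := ht1.trans ((le_max_left _ _).trans ht)
  have hlog := h3 s.im ((le_max_right _ _).trans ht)
  rw [div_le_iff₀ hκ] at hlog
  obtain ⟨k1, k2, k3⟩ := h1 (s + a) (by rw [re_add']; linarith)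
  have k4 := h2 (s - a) (by rw [re_sub']; linarith) (by rw [im_sub']; exact (le_max_left _ _).trans ht)
  rw [im_sub'] at k4
  have k5 := RR_bound ha0 ha1 (s := s) (by linarith) (by linarith)
  unfold QQ at h0
  have h4 : riemannZeta (s + a) = -(c * (RR a s * riemannZeta (s - a))) := eq_neg_of_add_eq_zero_left h0
  have h5 : ‖riemannZeta (s + a)‖ ≤ (4000 * s.im ^ (-a)) * (C2 * s.im ^ (a - κ)) := by
    rw [h4, norm_neg, norm_mul, norm_mul, hc, one_mul]
    gcongr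
  have h6 : (4000 * s.im ^ (-a)) * (C2 * s.im ^ (a - κ)) = 4000 * C2 * s.im ^ (-κ) := by
    have : s.im ^ (-κ) = s.im ^ (-a) * s.im ^ (a - κ) := by
      rw [← Real.rpow_add (by linarith)]; congr 1; ring
    rw [this]; ring
  rw [h6] at h5
  have h7 : 0 < s.im ^ κ := Real.rpow_pos_of_pos (by linarith) _
  have h8 : s.im ^ κ ≤ 4000 * C2 * C1 := by
    have h9 := k3.trans h5
    rw [Real.rpow_neg (by linarith)] at h9
    have hC0 : 0 < C1 := by linarith
    have h10 : C1⁻¹ * (C1 * s.im ^ κ) ≤ (4000 * C2 * (s.im ^ κ)⁻¹) * (C1 * s.im ^ κ) := by gcongr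
    have e1 : C1⁻¹ * (C1 * s.im ^ κ) = s.im ^ κ := by field_simp
    have e2 : (4000 * C2 * (s.im ^ κ)⁻¹) * (C1 * s.im ^ κ) = 4000 * C2 * C1 := by field_simp
    rw [e1, e2] at h10
    exact h10
  have h9 := Real.log_le_log h7 h8
  rw [Real.log_rpow (by linarith)] at h9
  linarith

/-- Zeros of zeta close to `Re s = 1` produce zeros close to the edge. -/
theorem QQ_local (a δ1 : ℝ) (ha0 : 0 < a) (ha1 : a < 1 / 2) (hδ1 : 0 < δ1) : ∃ η t₀ : ℝ, 0 < η ∧
    4 ≤ t₀ ∧ ∀ (c ρ : ℂ), ‖c‖ = 1 → 1 - η ≤ ρ.re → t₀ ≤ ρ.im → riemannZeta ρ = 0 →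
      ∃ s : ℂ, 1 - a - δ1 < s.re ∧ |s.im - ρ.im| ≤ 1 ∧ QQ a c s = 0 := by
  set δ2 : ℝ := min δ1 (1 / 2 - a) with hδ2
  have hδ20 : 0 < δ2 := lt_min hδ1 (by linarith)
  have hδ21 : δ2 ≤ δ1 := min_le_left _ _
  have hδ22 : δ2 ≤ 1 / 2 - a := min_le_right _ _
  obtain ⟨κ, η1, C2, t1, hκ, hη1, hC2, ht1, h2⟩ := sub_bound a ha0 ha1
  obtain ⟨C1, hC1, h1⟩ := zeta_right (1 / 8) (by norm_num)
  obtain ⟨C3, hC3, h3⟩ := zeta_growth
  set ρ0 : ℝ := δ2 / 4 with hρ0
  have hρ00 : 0 < ρ0 := by positivity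
  set D : ℝ := 2 * C1 with hD
  have hD1 : 1 ≤ D := by linarith
  obtain ⟨ηs, hηs, hsmall⟩ := log_small ρ0 (κ / 8) hρ00 (by linarith) (by positivity)
  obtain ⟨t2, ht2, hlg⟩ := log_large (max (max (4 * (4 * Real.pi + Real.log D + 16 * D ^ 2) / ηs)
    (Real.log (2 * C3 + 4000 * (2 * C3)) + 4)) (max (Real.log (8000 * C1 * C1 + 1) / a + 1)
    ((Real.log (4000 * C2) + 1) * 4 / κ)))
  refine ⟨min η1 (δ2 / 4), max t1 (max t2 4), by positivity,
    (le_max_right _ _).trans' (le_max_right _ _), ?_⟩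
  intro c ρ hc hρre hρim hρz
  by_contra hcon
  push Not at hcon
  have i1 : t1 ≤ ρ.im := (le_max_left _ _).trans hρim
  have i2 : t2 ≤ ρ.im := ((le_max_left _ _).trans (le_max_right _ _)).trans hρim
  have i3 : 4 ≤ ρ.im := ((le_max_right _ _).trans (le_max_right _ _)).trans hρim
  have j1 : 1 - η1 ≤ ρ.re := by linarith [min_le_left η1 (δ2 / 4)]
  have j2 : 1 - δ2 / 4 ≤ ρ.re := by linarith [min_le_right η1 (δ2 / 4)]
  have hρ1 : ρ.re < 1 := by
    by_contra hcon1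
    push Not at hcon1
    exact riemannZeta_ne_zero_of_one_le_re hcon1 hρz
  set y := ρ.im with hy
  have hℓ := hlg y i2
  set ℓ := Real.log y with hℓd
  have c1 : 4 * (4 * Real.pi + Real.log D + 16 * D ^ 2) ≤ ηs * ℓ := by
    have := ((le_max_left _ _).trans (le_max_left _ _)).trans hℓ
    rw [div_le_iff₀ hηs] at this
    linarith
  have c2 : Real.log (2 * C3 + 4000 * (2 * C3)) + 4 ≤ ℓ :=
    ((le_max_right _ _).trans (le_max_left _ _)).trans hℓ
  have c3 : Real.log (8000 * C1 * C1 + 1) / a + 1 ≤ ℓ :=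
    ((le_max_left _ _).trans (le_max_right _ _)).trans hℓ
  have c4 : (Real.log (4000 * C2) + 1) * 4 ≤ κ * ℓ := by
    have := ((le_max_right _ _).trans (le_max_right _ _)).trans hℓ
    rw [div_le_iff₀ hκ] at this
    linarith
  have hlogD : 0 ≤ Real.log D := Real.log_nonneg hD1
  have hy0 : 0 < y := by linarith
  have hℓ0 : 0 ≤ ℓ := Real.log_nonneg (by linarith)
  have hηℓ : 0 ≤ ηs * ℓ := mul_nonneg hηs.le hℓ0
  have hκℓ : 0 ≤ κ * ℓ := mul_nonneg hκ.le hℓ0
  set b : ℝ := 1 - a - δ2 with hb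
  -- facts in the box
  have hreg : ∀ w ∈ Rc b 3 y ρ0, 1 / 2 ≤ w.re ∧ w.re ≤ 3 ∧ 2 ≤ w.im ∧ w.im ≤ 2 * y ∧
      |w.im - y| ≤ 1 / 4 := by
    rintro w ⟨k1, k2, k3⟩
    have k3' := abs_lt.1 k3
    exact ⟨by linarith, by linarith, by linarith, by linarith, by linarith⟩
  have hne : ∀ w ∈ Rc b 3 y ρ0, QQ a c w ≠ 0 := by
    intro w hw
    obtain ⟨k1, k2, k3, k4, k5⟩ := hreg w hw
    exact hcon w (by linarith [hw.1]) (by linarith)
  have hrp : ∀ w : ℂ, 1 ≤ w.im → w.im ^ (-a) ≤ 1 := by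
    intro w hw
    exact Real.rpow_le_one_of_one_le_of_nonpos hw (by linarith)
  have hup : ∀ w : ℂ, 1 / 2 ≤ w.re → 1 ≤ w.im → ‖QQ a c w‖ ≤ (C3 + 4000 * C3) * w.im ^ 2 := by
    intro w k1 k2
    unfold QQ
    have l1 := h3 (w + a) (by rw [re_add']; linarith) (by rw [im_add]; exact k2)
    have l2 := h3 (w - a) (by rw [re_sub']; linarith) (by rw [im_sub']; exact k2)
    rw [im_add] at l1
    rw [im_sub'] at l2
    have l3 := RR_bound ha0 ha1 (s := w) (by linarith) k2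
    have l4 := hrp w k2
    refine (norm_add_le _ _).trans ?_
    rw [norm_mul, norm_mul, hc, one_mul]
    have l5 : ‖RR a w‖ * ‖riemannZeta (w - a)‖ ≤ 4000 * (C3 * w.im ^ 2) := by
      calc ‖RR a w‖ * ‖riemannZeta (w - a)‖ ≤ (4000 * w.im ^ (-a)) * (C3 * w.im ^ 2) := by gcongr
        _ ≤ (4000 * 1) * (C3 * w.im ^ 2) := by gcongr
        _ = _ := by ring
    linarith
  -- the right side
  have hrt : ∀ w : ℂ, 7 / 4 ≤ w.re → |w.im - y| ≤ 1 → ‖QQ a c w‖ ≤ D ∧ D⁻¹ ≤ ‖QQ a c w‖ := by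
    intro w k1 k2
    have k2' := abs_le.1 k2
    have k3 : 1 ≤ w.im := by linarith
    obtain ⟨l1, l2, l3⟩ := h1 (w + a) (by rw [re_add']; linarith)
    obtain ⟨m1, m2, m3⟩ := h1 (w - a) (by rw [re_sub']; linarith)
    have l4 := RR_bound ha0 ha1 (s := w) (by linarith) k3
    have l5 : w.im ^ (-a) ≤ (8000 * C1 * C1)⁻¹ := by
      rw [Real.rpow_neg (by linarith)]
      apply inv_anti₀ (by positivity)
      have n1 : Real.log (8000 * C1 * C1 + 1) ≤ a * Real.log w.im := by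
        have n2 : ℓ - 1 ≤ Real.log w.im := by
          have := log_near (h := 1) (y := w.im) (τ := y) (by norm_num) (by linarith) (by linarith) k2
          linarith [(abs_le.1 this).1]
        have n3 : Real.log (8000 * C1 * C1 + 1) / a ≤ Real.log w.im := by linarith
        rw [div_le_iff₀ ha0] at n3
        linarith
      have n2 : 8000 * C1 * C1 ≤ Real.exp (a * Real.log w.im) := by
        have n3 := Real.exp_le_exp.2 n1
        rw [Real.exp_log (by positivity)] at n3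
        linarith
      rw [Real.rpow_def_of_pos (by linarith), mul_comm (Real.log w.im) a]
      exact n2
    have l6 : ‖c * (RR a w * riemannZeta (w - a))‖ ≤ C1⁻¹ / 2 := by
      rw [norm_mul, norm_mul, hc, one_mul]
      calc ‖RR a w‖ * ‖riemannZeta (w - a)‖ ≤ (4000 * (8000 * C1 * C1)⁻¹) * C1 := by
            gcongr
            exact l4.trans (by gcongr)
        _ = C1⁻¹ / 2 := by field_simp; norm_num
    have hCi : C1⁻¹ ≤ 1 := inv_le_one_of_one_le₀ hC1
    constructor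
    · unfold QQ
      refine (norm_add_le _ _).trans ?_
      rw [hD]
      linarith
    · unfold QQ
      have n1 := norm_sub_norm_le (riemannZeta (w + a)) (-(c * (RR a w * riemannZeta (w - a))))
      rw [sub_neg_eq_add, norm_neg] at n1
      have n2 : D⁻¹ = C1⁻¹ / 2 := by rw [hD]; field_simp
      rw [n2]
      linarith
  have key := hsmall (2 * ℓ + 2 * ℓ) b y (QQ a c) (by linarith) (by linarith) (by
      have : 0 ≤ Real.log D + 16 * D ^ 2 := by positivity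
      have h5 : 0 < Real.pi := Real.pi_pos
      linarith)
    (fun w hw => (QQ_diff (by linarith [(hreg w hw).2.2.1])).differentiableWithinAt) hne
    (fun w hw => by
      obtain ⟨k1, k2, k3, k4, k5⟩ := hreg w hw
      refine (hup w k1 (by linarith)).trans ?_
      have l1 : w.im ≤ Real.exp (ℓ + 1) := by
        rw [Real.exp_add, hℓd, Real.exp_log hy0]
        have : (2 : ℝ) ≤ Real.exp 1 := by linarith [Real.exp_one_gt_d9]
        nlinarith
      have l2 : Real.exp (2 * (ℓ + 1)) = Real.exp (ℓ + 1) ^ 2 := by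
        rw [← Real.exp_nat_mul]; norm_num
      have l3 : (C3 + 4000 * C3) ≤ Real.exp (Real.log (2 * C3 + 4000 * (2 * C3))) := by
        rw [Real.exp_log (by positivity)]
        linarith
      have l0 : 0 ≤ w.im := by linarith
      calc (C3 + 4000 * C3) * w.im ^ 2
          ≤ Real.exp (Real.log (2 * C3 + 4000 * (2 * C3))) * Real.exp (2 * (ℓ + 1)) := by
            rw [l2]; gcongr
        _ = Real.exp (Real.log (2 * C3 + 4000 * (2 * C3)) + 2 * (ℓ + 1)) := by rw [← Real.exp_add]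
        _ ≤ _ := Real.exp_le_exp.2 (by linarith))
    (by
      obtain ⟨k1, k2⟩ := hrt ⟨2, y⟩ (by simp only; norm_num) (by simp)
      have hQ0 : 0 < ‖QQ a c ⟨2, y⟩‖ := lt_of_lt_of_le (by positivity) k2
      have l1 := Real.log_le_log hQ0 k1
      have l2 := Real.log_le_log (by positivity) k2
      rw [Real.log_inv] at l2
      have hpi := Real.pi_pos
      have : 0 ≤ 16 * D ^ 2 := by positivity
      rw [abs_le]
      constructor <;> linarith)
    (fun w hw => by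
      obtain ⟨k1, k2⟩ := ball_coords hw
      simp only at k1 k2
      have k1' := abs_lt.1 k1
      have k2' := abs_lt.1 k2
      have l1 : ‖deriv (QQ a c) w‖ ≤ 2 * D / (1 / 8) := by
        apply cauchy_deriv (by norm_num)
        · intro z hz
          have := abs_lt.1 (ball_coords hz).2
          exact (QQ_diff (by linarith)).differentiableWithinAt
        · intro z hz
          have m1 := abs_lt.1 (ball_coords hz).1
          have m2 := abs_lt.1 (ball_coords hz).2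
          exact (hrt z (by linarith) (by rw [abs_le]; constructor <;> linarith)).1
      have l2 := (hrt w (by linarith) (by rw [abs_le]; constructor <;> linarith)).2
      have hQ0 : 0 < ‖QQ a c w‖ := lt_of_lt_of_le (by positivity) l2
      rw [norm_div, div_le_iff₀ hQ0]
      have l3 : 2 * D / (1 / 8) = 16 * D ^ 2 * D⁻¹ := by field_simp; norm_num
      rw [l3] at l1
      have hpi := Real.pi_pos
      calc ‖deriv (QQ a c) w‖ ≤ 16 * D ^ 2 * D⁻¹ := l1
        _ ≤ (ηs * (2 * ℓ + 2 * ℓ) / 4) * ‖QQ a c w‖ := by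
          apply mul_le_mul _ l2 (by positivity) _
          · linarith
          · have : 0 ≤ 16 * D ^ 2 := by positivity
            linarith)
    (ρ - a) (by rw [im_sub']) (by rw [re_sub']; linarith) (by rw [re_sub']; linarith)
  -- the value at `ρ - a`
  have k1 := key.1
  have e1 : ρ - (a : ℂ) + a = ρ := by ring
  have e2 : QQ a c (ρ - a) = c * (RR a (ρ - a) * riemannZeta (ρ - a - a)) := by
    unfold QQ
    rw [e1, hρz, zero_add]
  have k2 : ‖QQ a c (ρ - a)‖ ≤ (4000 * y ^ (-a)) * (C2 * y ^ (a - κ)) := by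
    rw [e2, norm_mul, norm_mul, hc, one_mul]
    have l1 := RR_bound ha0 ha1 (s := ρ - a) (by rw [re_sub']; linarith) (by rw [im_sub']; linarith)
    have l2 := h2 (ρ - a - a) (by rw [re_sub', re_sub']; linarith) (by rw [im_sub', im_sub']; exact i1)
    rw [im_sub'] at l1
    rw [im_sub', im_sub'] at l2
    gcongr
  have h6 : (4000 * y ^ (-a)) * (C2 * y ^ (a - κ)) = 4000 * C2 * y ^ (-κ) := by
    have : y ^ (-κ) = y ^ (-a) * y ^ (a - κ) := by
      rw [← Real.rpow_add hy0]; congr 1; ring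
    rw [this]; ring
  rw [h6] at k2
  have hQne : QQ a c (ρ - a) ≠ 0 := by
    refine hcon (ρ - a) (by rw [re_sub']; linarith) (by rw [im_sub', sub_self, abs_zero]; norm_num)
  have k3 := Real.log_le_log (norm_pos_iff.2 hQne) k2
  rw [Real.log_mul (by positivity) (Real.rpow_pos_of_pos hy0 _).ne', Real.log_rpow hy0] at k3
  have k4 := (abs_le.1 k1).1
  linarith

end Pool.Agent.N799.TL
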