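import Pool.Agent.N799.TL.Local

/-!
# Lower bounds of `ζ` and zeros of `ξ(s + a) + c ξ(s - a)` when a half plane is zero free
-/

set_option autoImplicit false

open Complex Metric Set Filter Topology

namespace Pool.Agent.N799.TL

open Pool.Agent.N799.SP
open Pool.Agent.H24R2.JP (XX)

/-- Littlewood's lower bound under a zero-free half plane -/
theorem zeta_low (σ0 κ : ℝ) (hσ0 : 1 / 2 < σ0) (hσ1 : σ0 < 1) (hκ : 0 < κ)
    (hz : ∀ s : ℂ, σ0 ≤ s.re → riemannZeta s ≠ 0) : ∃ η t₀ : ℝ, 0 < η ∧ 4 ≤ t₀ ∧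
      ∀ s : ℂ, 1 - η ≤ s.re → t₀ ≤ s.im → s.im ^ (-κ) ≤ ‖riemannZeta s‖ := by
  obtain ⟨C1, hC1, h1⟩ := zeta_right (1 / 8) (by norm_num)
  obtain ⟨C3, hC3, h3⟩ := zeta_growth
  set ρ0 : ℝ := (1 - σ0) / 2 with hρ0
  have hρ00 : 0 < ρ0 := by rw [hρ0]; linarith
  set D : ℝ := C1 with hD
  have hD1 : 1 ≤ D := by linarith
  obtain ⟨ηs, hηs, hsmall⟩ := log_small ρ0 (κ / 4) hρ00 (by rw [hρ0]; linarith) (by positivity)
  obtain ⟨t2, ht2, hlg⟩ := log_large (max (max (4 * (4 * Real.pi + Real.log D + 16 * D ^ 2) / ηs)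
    (Real.log C3 + 4)) (Real.log D / κ))
  refine ⟨ρ0, max t2 4, hρ00, le_max_right _ _, ?_⟩
  intro s hs hst
  have i2 : t2 ≤ s.im := (le_max_left _ _).trans hst
  have i3 : 4 ≤ s.im := (le_max_right _ _).trans hst
  set y := s.im with hy
  have hℓ := hlg y i2
  set ℓ := Real.log y with hℓd
  have c1 : 4 * (4 * Real.pi + Real.log D + 16 * D ^ 2) ≤ ηs * ℓ := by
    have := ((le_max_left _ _).trans (le_max_left _ _)).trans hℓ
    rw [div_le_iff₀ hηs] at this
    linarith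
  have c2 : Real.log C3 + 4 ≤ ℓ :=
    ((le_max_right _ _).trans (le_max_left _ _)).trans hℓ
  have c3 : Real.log D ≤ κ * ℓ := by
    have := (le_max_right _ _).trans hℓ
    rw [div_le_iff₀ hκ] at this
    linarith
  have hlogD : 0 ≤ Real.log D := Real.log_nonneg hD1
  have hy0 : 0 < y := by linarith
  have hℓ0 : 0 ≤ ℓ := Real.log_nonneg (by linarith)
  have hηℓ : 0 ≤ ηs * ℓ := mul_nonneg hηs.le hℓ0
  have hκℓ : 0 ≤ κ * ℓ := mul_nonneg hκ.le hℓ0
  have hgoal : ∀ x : ℝ, 0 < x → -(κ * ℓ) ≤ Real.log x → y ^ (-κ) ≤ x := by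
    intro x hx hlx
    have e : y ^ (-κ) = Real.exp (-(κ * ℓ)) := by
      rw [Real.rpow_def_of_pos hy0]
      congr 1
      ring
    rw [e]
    calc Real.exp (-(κ * ℓ)) ≤ Real.exp (Real.log x) := Real.exp_le_exp.2 hlx
      _ = x := Real.exp_log hx
  rcases le_or_gt s.re 2 with hs2 | hs2
  swap
  · obtain ⟨l1, l2, l3⟩ := h1 s (by linarith)
    apply hgoal _ (norm_pos_iff.2 l1)
    have m1 := Real.log_le_log (by positivity) l3
    rw [Real.log_inv] at m1
    linarith
  -- facts in the box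
  have hreg : ∀ w ∈ Rc σ0 3 y ρ0, 1 / 2 ≤ w.re ∧ w.re ≤ 3 ∧ 2 ≤ w.im ∧ w.im ≤ 2 * y ∧
      |w.im - y| ≤ 1 / 4 := by
    rintro w ⟨k1, k2, k3⟩
    have k3' := abs_lt.1 k3
    have : ρ0 ≤ 1 / 4 := by rw [hρ0]; linarith
    exact ⟨by linarith, by linarith, by linarith, by linarith, by rw [abs_le]; constructor <;> linarith⟩
  have hdz : ∀ w : ℂ, w.im ≠ 0 → DifferentiableAt ℂ riemannZeta w := fun w hw =>
    differentiableAt_riemannZeta (ne_one_of_im hw)
  have key := hsmall (2 * ℓ + 2 * ℓ) σ0 y riemannZeta (by linarith) (by linarith) (by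
      have : 0 ≤ Real.log D + 16 * D ^ 2 := by positivity
      have h5 : 0 < Real.pi := Real.pi_pos
      linarith)
    (fun w hw => (hdz w (by linarith [(hreg w hw).2.2.1])).differentiableWithinAt)
    (fun w hw => hz w (by linarith [hw.1]))
    (fun w hw => by
      obtain ⟨k1, k2, k3, k4, k5⟩ := hreg w hw
      refine (h3 w (by linarith) (by linarith)).trans ?_
      have l1 : w.im ≤ Real.exp (ℓ + 1) := by
        rw [Real.exp_add, hℓd, Real.exp_log hy0]
        have : (2 : ℝ) ≤ Real.exp 1 := by linarith [Real.exp_one_gt_d9]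
        nlinarith
      have l2 : Real.exp (2 * (ℓ + 1)) = Real.exp (ℓ + 1) ^ 2 := by
        rw [← Real.exp_nat_mul]; norm_num
      have l3 : C3 ≤ Real.exp (Real.log C3) := by
        rw [Real.exp_log (by positivity)]
      have l0 : 0 ≤ w.im := by linarith
      calc C3 * w.im ^ 2
          ≤ Real.exp (Real.log C3) * Real.exp (2 * (ℓ + 1)) := by
            rw [l2]; gcongr
        _ = Real.exp (Real.log C3 + 2 * (ℓ + 1)) := by rw [← Real.exp_add]
        _ ≤ _ := Real.exp_le_exp.2 (by linarith))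
    (by
      obtain ⟨k0, k1, k2⟩ := h1 ⟨2, y⟩ (by simp only; norm_num)
      have hQ0 : 0 < ‖riemannZeta ⟨2, y⟩‖ := norm_pos_iff.2 k0
      have l1 := Real.log_le_log hQ0 k1
      have l2 := Real.log_le_log (by positivity) k2
      rw [Real.log_inv] at l2
      have hpi := Real.pi_pos
      have : 0 ≤ 16 * D ^ 2 := by positivity
      rw [abs_le]
      constructor <;> linarith)
    (fun w hw => by
      have hr4 : ρ0 ≤ 1 / 4 := by rw [hρ0]; linarith
      obtain ⟨k1, k2⟩ := ball_coords hw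
      simp only at k1 k2
      have k1' := abs_lt.1 k1
      have k2' := abs_lt.1 k2
      have l1 : ‖deriv riemannZeta w‖ ≤ 2 * D / (1 / 8) := by
        apply cauchy_deriv (by norm_num)
        · intro z hz
          have := abs_lt.1 (ball_coords hz).2
          exact (hdz z (by linarith)).differentiableWithinAt
        · intro z hz
          have m1 := abs_lt.1 (ball_coords hz).1
          exact (h1 z (by linarith)).2.1
      obtain ⟨l0, -, l2⟩ := h1 w (by linarith)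
      have hQ0 : 0 < ‖riemannZeta w‖ := norm_pos_iff.2 l0
      rw [norm_div, div_le_iff₀ hQ0]
      have l3 : 2 * D / (1 / 8) = 16 * D ^ 2 * D⁻¹ := by field_simp; norm_num
      rw [l3] at l1
      have hpi := Real.pi_pos
      calc ‖deriv riemannZeta w‖ ≤ 16 * D ^ 2 * D⁻¹ := l1
        _ ≤ (ηs * (2 * ℓ + 2 * ℓ) / 4) * ‖riemannZeta w‖ := by
          apply mul_le_mul _ l2 (by positivity) _
          · linarith
          · have : 0 ≤ 16 * D ^ 2 := by positivity
            linarith)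
    s rfl (by rw [hρ0]; rw [hρ0] at hs; linarith) hs2
  apply hgoal _ (norm_pos_iff.2 (hz s (by rw [hρ0] at hs; linarith)))
  have := (abs_le.1 key.1).1
  linarith

/-- no zeros close to the edge when `ζ` has a zero-free half plane -/
theorem QQ_free (a σ0 : ℝ) (ha0 : 0 < a) (ha1 : a < 1 / 2) (hσ0 : 1 / 2 < σ0) (hσ1 : σ0 < 1)
    (hz : ∀ s : ℂ, σ0 ≤ s.re → riemannZeta s ≠ 0) : ∃ δ t₀ : ℝ, 0 < δ ∧ 4 ≤ t₀ ∧
    ∀ (c s : ℂ), ‖c‖ = 1 → 1 - a - δ ≤ s.re → t₀ ≤ s.im → QQ a c s ≠ 0 := by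
  obtain ⟨κ, η1, C2, t1, hκ, hη1, hC2, ht1, h2⟩ := sub_bound a ha0 ha1
  obtain ⟨η2, t2, hη2, ht2, h1⟩ := zeta_low σ0 (κ / 2) hσ0 hσ1 (by positivity) hz
  obtain ⟨t3, ht3, h3⟩ := log_large ((Real.log (4000 * C2) + 1) / (κ / 2))
  refine ⟨min (min η1 η2) (1 / 4), max t1 (max t2 t3), lt_min (lt_min hη1 hη2) (by norm_num),
    ht1.trans (le_max_left _ _), fun c s hc hs ht h0 => ?_⟩
  have m1 : min (min η1 η2) (1 / 4) ≤ η1 := (min_le_left _ _).trans (min_le_left _ _)
  have m2 : min (min η1 η2) (1 / 4) ≤ η2 := (min_le_left _ _).trans (min_le_right _ _)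
  have m3 : min (min η1 η2) (1 / 4) ≤ 1 / 4 := min_le_right _ _
  have i1 : t1 ≤ s.im := (le_max_left _ _).trans ht
  have i2 : t2 ≤ s.im := ((le_max_left _ _).trans (le_max_right _ _)).trans ht
  have i3 : t3 ≤ s.im := ((le_max_right _ _).trans (le_max_right _ _)).trans ht
  have him : 4 ≤ s.im := ht1.trans i1
  have hlog := h3 s.im i3
  rw [div_le_iff₀ (by positivity)] at hlog
  have k3 := h1 (s + a) (by rw [re_add']; linarith) (by rw [im_add]; exact i2)
  rw [im_add] at k3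
  have k4 := h2 (s - a) (by rw [re_sub']; linarith) (by rw [im_sub']; exact i1)
  rw [im_sub'] at k4
  have k5 := RR_bound ha0 ha1 (s := s) (by linarith) (by linarith)
  unfold QQ at h0
  have h4 : riemannZeta (s + a) = -(c * (RR a s * riemannZeta (s - a))) := eq_neg_of_add_eq_zero_left h0
  have h5 : ‖riemannZeta (s + a)‖ ≤ (4000 * s.im ^ (-a)) * (C2 * s.im ^ (a - κ)) := by
    rw [h4, norm_neg, norm_mul, norm_mul, hc, one_mul]
    gcongr
  have h6 : (4000 * s.im ^ (-a)) * (C2 * s.im ^ (a - κ)) = 4000 * C2 * s.im ^ (-κ) := by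
    have : s.im ^ (-κ) = s.im ^ (-a) * s.im ^ (a - κ) := by
      rw [← Real.rpow_add (by linarith)]; congr 1; ring
    rw [this]; ring
  rw [h6] at h5
  have hy0 : 0 < s.im := by linarith
  have h7 : 0 < s.im ^ (-(κ / 2)) := Real.rpow_pos_of_pos hy0 _
  have h9 := Real.log_le_log h7 (k3.trans h5)
  rw [Real.log_rpow hy0, Real.log_mul (by positivity) (Real.rpow_pos_of_pos hy0 _).ne',
    Real.log_rpow hy0] at h9
  linarith

end Pool.Agent.N799.TL
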